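import Pool.Agent.Lib.MP_95ac01_nt.Iface

/-!
# MP_95ac01_nt: module LX
-/

set_option autoImplicit false

namespace Cub.H5

open Finset Cub

theorem bz_le {P : Fin 4 → Fin 4 → ℤ} {K : ℕ} : bz P ≤ K ↔ ∀ i j, |P i j| ≤ (K : ℤ) := by
  simp only [bz, Finset.sup_le_iff, Finset.mem_univ, true_implies, Prod.forall]
  refine forall_congr' fun i => forall_congr' fun j => ?_
  rw [← Int.natCast_natAbs]
  exact Int.ofNat_le.symm

theorem abs_le_bz (P : Fin 4 → Fin 4 → ℤ) (i j : Fin 4) : |P i j| ≤ (bz P : ℤ) := bz_le.1 le_rfl i j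

theorem bz_mn (x z : Fin 4 → ℤ) : bz (mn x z) = wd x z := rfl

theorem bz_pos {P : Fin 4 → Fin 4 → ℤ} (h : P ≠ 0) : 0 < bz P := by
  by_contra h0
  apply h
  funext i j
  have h1 := abs_le_bz P i j
  have h2 : (bz P : ℤ) = 0 := by omega
  rw [h2] at h1
  simpa using h1

theorem mem_LxF {x : Fin 4 → ℤ} {t : ℕ} {P : Fin 4 → Fin 4 → ℤ} :
    P ∈ LxF x t ↔ (∀ i j, |P i j| ≤ (t : ℤ)) ∧ Lx x P := by
  simp [LxF, Fintype.mem_piFinset, abs_le]

theorem mn_sub (x z w : Fin 4 → ℤ) (i j : Fin 4) :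
    mn x (z - w) i j = mn x z i j - mn x w i j := by
  simp only [mn, Pi.sub_apply]; ring

theorem mn_eq_zero {x z : Fin 4 → ℤ} (h : wd x z = 0) (i j : Fin 4) : mn x z i j = 0 := by
  have := abs_mn_le x z i j
  rw [h] at this
  simpa using this

theorem dt_sub (l z w : Fin 4 → ℤ) : dt l (z - w) = dt l z - dt l w := by
  simp only [dt, Pi.sub_apply, mul_sub, Finset.sum_sub_distrib]

theorem contract (l x z : Fin 4 → ℤ) (h : dt l x = 0) (i : Fin 4) :
    ∑ j, l j * mn x z i j = x i * dt l z := by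
  have h1 : ∑ j, l j * mn x z i j = x i * dt l z - z i * dt l x := by
    simp only [dt, mn, Finset.mul_sum, ← Finset.sum_sub_distrib]
    exact Finset.sum_congr rfl fun j _ => by ring
  rw [h1, h]; ring

theorem contract_le {A t : ℕ} {l x z : Fin 4 → ℤ} (h : dt l x = 0) (hl : ∀ i, |l i| ≤ (A : ℤ))
    (hP : ∀ i j, |mn x z i j| ≤ (t : ℤ)) (i : Fin 4) : |x i| * |dt l z| ≤ 4 * (A * t) := by
  rw [← abs_mul, ← contract l x z h i]
  calc |∑ j, l j * mn x z i j| ≤ ∑ j : Fin 4, |l j * mn x z i j| := Finset.abs_sum_le_sum_abs _ _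
    _ ≤ ∑ j : Fin 4, (A : ℤ) * t := by
      refine Finset.sum_le_sum fun j _ => ?_
      rw [abs_mul]
      exact mul_le_mul (hl j) (hP i j) (abs_nonneg _) (Int.natCast_nonneg _)
    _ = 4 * (A * t) := by simp

/-- counting integers in an interval -/
theorem cnt (X c : ℤ) (t N : ℕ) (hX : |X| = (N : ℤ)) (hN : 1 ≤ N) (ht : N ≤ t) :
    ∃ S : Finset ℤ, (∀ z : ℤ, |X * z - c| ≤ (t : ℤ) → z ∈ S) ∧ S.card * N ≤ 5 * t := by
  by_cases h : ∃ z0 : ℤ, |X * z0 - c| ≤ (t : ℤ)
  · obtain ⟨z0, hz0⟩ := h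
    refine ⟨Icc (z0 - ((2 * t / N : ℕ) : ℤ)) (z0 + ((2 * t / N : ℕ) : ℤ)), ?_, ?_⟩
    · intro z hz
      have h1 : |X * (z - z0)| ≤ 2 * (t : ℤ) := by
        have : X * (z - z0) = (X * z - c) - (X * z0 - c) := by ring
        rw [this]
        calc |(X * z - c) - (X * z0 - c)| ≤ |X * z - c| + |X * z0 - c| := abs_sub _ _
          _ ≤ 2 * (t : ℤ) := by linarith
      rw [abs_mul, hX] at h1
      have h2 : (z - z0).natAbs * N ≤ 2 * t := by
        have : (((z - z0).natAbs * N : ℕ) : ℤ) ≤ ((2 * t : ℕ) : ℤ) := by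
          push_cast
          rw [mul_comm]
          exact h1
        exact_mod_cast this
      have h3 : (z - z0).natAbs ≤ 2 * t / N := (Nat.le_div_iff_mul_le (by omega)).2 h2
      have h4 : |z - z0| ≤ ((2 * t / N : ℕ) : ℤ) := by
        rw [← Int.natCast_natAbs]
        exact_mod_cast h3
      rw [abs_le] at h4
      rw [Finset.mem_Icc]
      constructor <;> linarith [h4.1, h4.2]
    · rw [Int.card_Icc]
      have h1 : (z0 + ((2 * t / N : ℕ) : ℤ) + 1 - (z0 - ((2 * t / N : ℕ) : ℤ))).toNat =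
          2 * (2 * t / N) + 1 := by omega
      rw [h1]
      have h2 : 2 * t / N * N ≤ 2 * t := Nat.div_mul_le_self _ _
      calc (2 * (2 * t / N) + 1) * N = 2 * (2 * t / N * N) + N := by ring
        _ ≤ 2 * (2 * t) + t := by omega
        _ = 5 * t := by ring
  · refine ⟨∅, fun z hz => absurd ⟨z, hz⟩ h, by simp⟩

/-- reduce a representative modulo `x` -/
theorem reduce {x : Fin 4 → ℤ} {i0 : Fin 4} {N : ℕ} (hN : |x i0| = (N : ℤ)) (h1 : 1 ≤ N)
    (z : Fin 4 → ℤ) : ∃ w : Fin 4 → ℤ, mn x w = mn x z ∧ 0 ≤ w i0 ∧ w i0 < N := by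
  have hx : x i0 ≠ 0 := by
    intro h0
    rw [h0] at hN
    simp at hN
    omega
  refine ⟨fun i => z i - (z i0 / x i0) * x i, ?_, ?_, ?_⟩
  · funext i j
    simp only [mn]; ring
  · have h2 : z i0 - z i0 / x i0 * x i0 = z i0 % x i0 := by
      have := Int.emod_add_mul_ediv (z i0) (x i0)
      linarith
    show 0 ≤ z i0 - z i0 / x i0 * x i0
    rw [h2]
    exact Int.emod_nonneg _ hx
  · have h2 : z i0 - z i0 / x i0 * x i0 = z i0 % x i0 := by
      have := Int.emod_add_mul_ediv (z i0) (x i0)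
      linarith
    show z i0 - z i0 / x i0 * x i0 < N
    rw [h2, ← hN]
    exact Int.emod_lt_abs _ hx

theorem lx (hLin : LinStatement) : LxStatement := by
  classical
  refine ⟨13824, fun A B x hxG => ?_⟩
  obtain ⟨hsh, l, hind, hl0, hlA⟩ := mem_G.1 hxG
  obtain ⟨hxB, hprim, i0, hi0⟩ := mem_shell.1 hsh
  have hx0 : x ≠ 0 := prim_ne_zero hprim
  have hdet : ∀ z : Fin 4 → ℤ, (∀ a, dt (l a) z = 0) → wd x z = 0 := (hLin l x hind hl0 hx0).2
  obtain ⟨N, hN⟩ : ∃ N : ℕ, |x i0| = (N : ℤ) := ⟨(x i0).natAbs, by simp⟩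
  have hNB : N ≤ B := by
    have := hxB i0
    rw [hN] at this
    exact_mod_cast this
  have hBN : B < 2 * N := by
    rw [hN] at hi0
    exact_mod_cast hi0
  have hN1 : 1 ≤ N := by omega
  have hkey : ∀ (t : ℕ) (z : Fin 4 → ℤ), (∀ i j, |mn x z i j| ≤ (t : ℤ)) → ∀ a,
      (B : ℤ) * |dt (l a) z| ≤ 8 * (A * t) := by
    intro t z hP a
    have h1 := contract_le (hl0 a) (hlA a) hP i0
    rw [hN] at h1
    have h2 : (B : ℤ) ≤ 2 * N := by exact_mod_cast hBN.le
    have h3 : 0 ≤ |dt (l a) z| := abs_nonneg _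
    calc (B : ℤ) * |dt (l a) z| ≤ 2 * N * |dt (l a) z| := mul_le_mul_of_nonneg_right h2 h3
      _ ≤ 8 * (A * t) := by linarith
  refine ⟨?_, ?_, ?_⟩
  · rintro P ⟨z, rfl⟩ hP
    by_contra hlt
    apply hP
    have hw : wd x z = 0 := by
      refine hdet z fun a => ?_
      by_contra hne
      have h1 := hkey (bz (mn x z)) z (fun i j => abs_le_bz _ i j) a
      have h2 : 1 ≤ |dt (l a) z| := Int.one_le_abs hne
      have h3 : (B : ℤ) ≤ 8 * (A * bz (mn x z)) := by
        have : (B : ℤ) * 1 ≤ B * |dt (l a) z| := mul_le_mul_of_nonneg_left h2 (Int.natCast_nonneg _)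
        linarith
      apply hlt
      have h4 : ((B : ℕ) : ℤ) ≤ ((8 * A * bz (mn x z) : ℕ) : ℤ) := by
        push_cast
        linarith
      exact_mod_cast h4
    funext i j
    exact mn_eq_zero hw i j
  · intro t ht
    set M : ℕ := 8 * A * t / B with hM
    have hch : ∀ P ∈ LxF x t, ∃ z : Fin 4 → ℤ, P = mn x z := fun P hP => (mem_LxF.1 hP).2
    choose! z hz using hch
    have hcard : (LxF x t).card ≤ (2 * M + 1) ^ 3 := by
      have h1 : (LxF x t).card ≤
          (Fintype.piFinset fun _ : Fin 3 => Icc (-(M : ℤ)) M).card := by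
        refine Finset.card_le_card_of_injOn (fun P a => dt (l a) (z P)) ?_ ?_
        · intro P hP
          rw [Finset.mem_coe, Fintype.mem_piFinset]
          intro a
          rw [Finset.mem_Icc, ← abs_le]
          have h2 : ∀ i j, |mn x (z P) i j| ≤ (t : ℤ) := by
            rw [← hz P hP]
            exact (mem_LxF.1 hP).1
          have h3 := hkey t (z P) h2 a
          have h4 : (dt (l a) (z P)).natAbs * B ≤ 8 * A * t := by
            have : (((dt (l a) (z P)).natAbs * B : ℕ) : ℤ) ≤ ((8 * A * t : ℕ) : ℤ) := by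
              push_cast
              linarith
            exact_mod_cast this
          have h5 : (dt (l a) (z P)).natAbs ≤ M := (Nat.le_div_iff_mul_le (by omega)).2 h4
          rw [← Int.natCast_natAbs]
          exact_mod_cast h5
        · intro P hP Q hQ hPQ
          have h2 : ∀ a, dt (l a) (z P - z Q) = 0 := by
            intro a
            rw [dt_sub]
            have := congrFun hPQ a
            simp only at this
            rw [this, sub_self]
          have h3 := hdet _ h2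
          rw [hz P hP, hz Q hQ]
          funext i j
          have h4 := mn_eq_zero h3 i j
          rw [mn_sub] at h4
          linarith
      refine h1.trans (le_of_eq ?_)
      rw [Fintype.card_piFinset]
      simp only [Int.card_Icc, Finset.prod_const, Finset.card_univ, Fintype.card_fin]
      congr 1; omega
    have h2 : M * B ≤ 8 * A * t := Nat.div_mul_le_self _ _
    have h3 : (2 * M + 1) * B ≤ 24 * (A * t) := by
      calc (2 * M + 1) * B = 2 * (M * B) + B := by ring
        _ ≤ 2 * (8 * A * t) + 8 * A * t := by omega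
        _ = 24 * (A * t) := by ring
    calc (LxF x t).card * B ^ 3 ≤ (2 * M + 1) ^ 3 * B ^ 3 := Nat.mul_le_mul_right _ hcard
      _ = ((2 * M + 1) * B) ^ 3 := by ring
      _ ≤ (24 * (A * t)) ^ 3 := Nat.pow_le_pow_left h3 3
      _ = 13824 * (A * t) ^ 3 := by ring
  · intro t ht
    have hNt : N ≤ t := by omega
    have hS : ∀ (j : Fin 4) (s : ℤ), ∃ S : Finset ℤ,
        (∀ w : ℤ, |x i0 * w - x j * s| ≤ (t : ℤ) → w ∈ S) ∧ S.card * N ≤ 5 * t :=
      fun j s => cnt (x i0) (x j * s) t N hN hN1 hNt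
    choose S hS1 hS2 using hS
    let F : ℤ → Finset (Fin 4 → ℤ) := fun s =>
      Fintype.piFinset fun j => if j = i0 then {s} else S j s
    have hsub : LxF x t ⊆ ((Ico (0 : ℤ) N).biUnion F).image (mn x) := by
      intro P hP
      obtain ⟨hP1, z, rfl⟩ := mem_LxF.1 hP
      obtain ⟨w, hw, hw0, hw1⟩ := reduce hN hN1 z
      rw [Finset.mem_image]
      refine ⟨w, ?_, hw⟩
      rw [Finset.mem_biUnion]
      refine ⟨w i0, Finset.mem_Ico.2 ⟨hw0, hw1⟩, ?_⟩
      rw [Fintype.mem_piFinset]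
      intro j
      by_cases hj : j = i0
      · rw [if_pos hj, hj]
        exact Finset.mem_singleton_self _
      · rw [if_neg hj]
        refine hS1 j (w i0) (w j) ?_
        have h1 := hP1 i0 j
        rw [← hw] at h1
        exact h1
    have hF : ∀ s, (F s).card * N ^ 3 ≤ (5 * t) ^ 3 := by
      intro s
      have h1 : (F s).card = ∏ j ∈ univ.erase i0, (S j s).card := by
        show (Fintype.piFinset fun j => if j = i0 then {s} else S j s).card = _
        rw [Fintype.card_piFinset, ← Finset.mul_prod_erase univ _ (Finset.mem_univ i0), if_pos rfl,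
          Finset.card_singleton, one_mul]
        refine Finset.prod_congr rfl fun j hj => ?_
        rw [if_neg (Finset.ne_of_mem_erase hj)]
      have hc : (univ.erase i0).card = 3 := by
        rw [Finset.card_erase_of_mem (Finset.mem_univ i0)]
        simp
      have h2 : (F s).card * N ^ 3 = ∏ j ∈ univ.erase i0, ((S j s).card * N) := by
        rw [Finset.prod_mul_distrib, Finset.prod_const, hc, h1]
      rw [h2]
      calc ∏ j ∈ univ.erase i0, ((S j s).card * N) ≤ ∏ _j ∈ univ.erase i0, (5 * t) :=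
            Finset.prod_le_prod' fun j _ => hS2 j s
        _ = (5 * t) ^ 3 := by rw [Finset.prod_const, hc]
    have hcard : (LxF x t).card ≤ ∑ s ∈ Ico (0 : ℤ) N, (F s).card :=
      (Finset.card_le_card hsub).trans (Finset.card_image_le.trans Finset.card_biUnion_le)
    have h3 : (LxF x t).card * N ^ 3 ≤ N * (5 * t) ^ 3 := by
      calc (LxF x t).card * N ^ 3 ≤ (∑ s ∈ Ico (0 : ℤ) N, (F s).card) * N ^ 3 :=
            Nat.mul_le_mul_right _ hcard
        _ = ∑ s ∈ Ico (0 : ℤ) N, (F s).card * N ^ 3 := by rw [Finset.sum_mul]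
        _ ≤ ∑ _s ∈ Ico (0 : ℤ) N, (5 * t) ^ 3 := Finset.sum_le_sum fun s _ => hF s
        _ = N * (5 * t) ^ 3 := by simp
    have h4 : (LxF x t).card * N ^ 2 ≤ (5 * t) ^ 3 := by
      have : N * ((LxF x t).card * N ^ 2) ≤ N * (5 * t) ^ 3 := by
        calc N * ((LxF x t).card * N ^ 2) = (LxF x t).card * N ^ 3 := by ring
          _ ≤ _ := h3
      exact Nat.le_of_mul_le_mul_left this (by omega)
    calc (LxF x t).card * B ^ 2 ≤ (LxF x t).card * (2 * N) ^ 2 :=
          Nat.mul_le_mul_left _ (Nat.pow_le_pow_left hBN.le 2)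
      _ = 4 * ((LxF x t).card * N ^ 2) := by ring
      _ ≤ 4 * (5 * t) ^ 3 := Nat.mul_le_mul_left _ h4
      _ = 500 * t ^ 3 := by ring
      _ ≤ 13824 * t ^ 3 := Nat.mul_le_mul_right _ (by norm_num)

end Cub.H5
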