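import Pool.Agent.Lib.MP_95ac01_nt.H5.Lx

/-!
# MP_95ac01_nt: module LXSUM (Abel summation)
-/

set_option autoImplicit false

namespace Cub.H5

open Finset Cub

theorem step_ineq (t : ℕ) (ht : 1 ≤ t) :
    1 / (t : ℝ) ^ 2 ≤ 1 / ((t + 1 : ℕ) : ℝ) ^ 2 + 2 / (t : ℝ) ^ 3 := by
  have h : (1 : ℝ) ≤ t := by exact_mod_cast ht
  have h0 : (0 : ℝ) < t := by linarith
  push_cast
  rw [div_add_div _ _ (by positivity) (by positivity), div_le_div_iff₀ (by positivity) (by positivity)]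
  nlinarith [mul_pos h0 h0, mul_pos (mul_pos h0 h0) h0, mul_pos (mul_pos h0 h0) (mul_pos h0 h0)]

/-- `1/n² ≤ 1/h² + ∑_{n ≤ t < h} 2/t³` -/
theorem abel (n h : ℕ) (hn : 1 ≤ n) (hnh : n ≤ h) :
    1 / (n : ℝ) ^ 2 ≤ 1 / (h : ℝ) ^ 2 + ∑ t ∈ Ico n h, 2 / (t : ℝ) ^ 3 := by
  induction h, hnh using Nat.le_induction with
  | base => simp
  | succ m hm ih =>
    rw [Finset.sum_Ico_succ_top hm]
    have := step_ineq m (by omega)
    linarith

theorem lxsum (hLx : LxStatement) : LxSumStatement := by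
  classical
  obtain ⟨C, hC⟩ := hLx
  refine ⟨3 * C + 1, by positivity, fun A B x hx h => ?_⟩
  obtain ⟨ha, hb, hc⟩ := hC A B x hx
  set S := (LxF x h).filter (fun P => P ≠ 0) with hS
  have hBpos : 0 < B := by
    obtain ⟨hsh, -⟩ := mem_G.1 hx
    obtain ⟨hxB, -, i0, hi0⟩ := mem_shell.1 hsh
    have := hxB i0
    by_contra h0
    have : B = 0 := by omega
    subst this
    simp at hi0 this
    omega
  have hB : (0 : ℝ) < B := by exact_mod_cast hBpos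
  -- number of nonzero elements of size at most `t`
  let f : ℕ → ℕ := fun t => (S.filter fun P => bz P ≤ t).card
  have hf1 : ∀ t, f t ≤ (LxF x t).card := by
    intro t
    refine Finset.card_le_card ?_
    intro P hP
    rw [Finset.mem_filter, hS, Finset.mem_filter] at hP
    rw [mem_LxF]
    exact ⟨bz_le.1 hP.2, (mem_LxF.1 hP.1.1).2⟩
  have hf0 : ∀ t, 8 * A * t < B → f t = 0 := by
    intro t ht
    show (S.filter fun P => bz P ≤ t).card = 0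
    rw [Finset.card_eq_zero, Finset.filter_eq_empty_iff]
    intro P hP hPt
    rw [hS, Finset.mem_filter] at hP
    have h1 := ha P (mem_LxF.1 hP.1).2 hP.2
    have h2 : 8 * A * bz P ≤ 8 * A * t := Nat.mul_le_mul_left _ hPt
    omega
  -- bound of `f`
  have hf2 : ∀ t : ℕ, (f t : ℝ) ≤ C * (((A : ℝ) * t) ^ 3 / (B : ℝ) ^ 3 +
      if B ≤ t then (t : ℝ) ^ 3 / (B : ℝ) ^ 2 else 0) := by
    intro t
    have hp : 0 ≤ ((A : ℝ) * t) ^ 3 / (B : ℝ) ^ 3 := by positivity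
    by_cases h1 : B ≤ t
    · rw [if_pos h1]
      have h2 := (Nat.mul_le_mul_right (B ^ 2) (hf1 t)).trans (hc t h1)
      have h3 : (f t : ℝ) * (B : ℝ) ^ 2 ≤ C * (t : ℝ) ^ 3 := by exact_mod_cast h2
      have h4 : (f t : ℝ) ≤ C * ((t : ℝ) ^ 3 / (B : ℝ) ^ 2) := by
        rw [← mul_div_assoc, le_div_iff₀ (by positivity)]
        exact h3
      have h5 : 0 ≤ (C : ℝ) * (((A : ℝ) * t) ^ 3 / (B : ℝ) ^ 3) := by positivity
      linarith [mul_add (C : ℝ) (((A : ℝ) * t) ^ 3 / (B : ℝ) ^ 3) ((t : ℝ) ^ 3 / (B : ℝ) ^ 2)]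
    · rw [if_neg h1, add_zero]
      by_cases h2 : B ≤ 8 * A * t
      · have h3 := (Nat.mul_le_mul_right (B ^ 3) (hf1 t)).trans (hb t h2)
        have h4 : (f t : ℝ) * (B : ℝ) ^ 3 ≤ C * ((A : ℝ) * t) ^ 3 := by exact_mod_cast h3
        rw [← mul_div_assoc, le_div_iff₀ (by positivity)]
        exact h4
      · rw [hf0 t (by omega)]
        simp only [Nat.cast_zero]
        positivity
  -- for `t < B` only the first term matters; better bounds for `t ≥ B`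
  have hf3 : ∀ t : ℕ, 1 ≤ t → (f t : ℝ) / (t : ℝ) ^ 3 ≤
      C * ((if t < B then (A : ℝ) ^ 3 / (B : ℝ) ^ 3 else 0) + 1 / (B : ℝ) ^ 2 *
        (if B ≤ t then 1 else 0)) := by
    intro t ht
    have ht0 : (0 : ℝ) < t := by exact_mod_cast ht
    rw [div_le_iff₀ (by positivity)]
    by_cases h1 : B ≤ t
    · rw [if_neg (by omega), if_pos h1]
      have h2 := (Nat.mul_le_mul_right (B ^ 2) (hf1 t)).trans (hc t h1)
      have h3 : (f t : ℝ) * (B : ℝ) ^ 2 ≤ C * (t : ℝ) ^ 3 := by exact_mod_cast h2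
      have h4 : (f t : ℝ) ≤ C * (t : ℝ) ^ 3 / (B : ℝ) ^ 2 := by
        rw [le_div_iff₀ (by positivity)]
        exact h3
      calc (f t : ℝ) ≤ C * (t : ℝ) ^ 3 / (B : ℝ) ^ 2 := h4
        _ = C * (0 + 1 / (B : ℝ) ^ 2 * 1) * (t : ℝ) ^ 3 := by ring
    · rw [if_pos (by omega), if_neg h1]
      have h2 := hf2 t
      rw [if_neg h1] at h2
      calc (f t : ℝ) ≤ C * (((A : ℝ) * t) ^ 3 / (B : ℝ) ^ 3 + 0) := h2
        _ = C * ((A : ℝ) ^ 3 / (B : ℝ) ^ 3 + 1 / (B : ℝ) ^ 2 * 0) * (t : ℝ) ^ 3 := by ring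
  have hSb : ∀ P ∈ S, 1 ≤ bz P ∧ bz P ≤ h := by
    intro P hP
    rw [hS, Finset.mem_filter] at hP
    exact ⟨bz_pos hP.2, bz_le.2 (mem_LxF.1 hP.1).1⟩
  by_cases hh : h = 0
  · have hSe : S = ∅ := by
      rw [Finset.eq_empty_iff_forall_notMem]
      intro P hP
      have := hSb P hP
      omega
    rw [hSe, Finset.sum_empty]
    positivity
  have hh1 : 1 ≤ h := by omega
  have hh0 : (0 : ℝ) < h := by exact_mod_cast hh1
  -- Abel summation
  have hA1 : ∑ P ∈ S, 1 / (bz P : ℝ) ^ 2 ≤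
      (f h : ℝ) / (h : ℝ) ^ 2 + ∑ t ∈ Ico 1 h, 2 * ((f t : ℝ) / (t : ℝ) ^ 3) := by
    have e1 : ∑ P ∈ S, 1 / (bz P : ℝ) ^ 2 ≤
        ∑ P ∈ S, (1 / (h : ℝ) ^ 2 + ∑ t ∈ Ico 1 h, if bz P ≤ t then 2 / (t : ℝ) ^ 3 else 0) := by
      refine Finset.sum_le_sum fun P hP => ?_
      obtain ⟨h1, h2⟩ := hSb P hP
      refine (abel _ _ h1 h2).trans ?_
      gcongr
      rw [← Finset.sum_filter]
      refine Finset.sum_le_sum_of_subset_of_nonneg ?_ (fun _ _ _ => by positivity)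
      intro t ht
      rw [Finset.mem_Ico] at ht
      rw [Finset.mem_filter, Finset.mem_Ico]
      omega
    refine e1.trans (le_of_eq ?_)
    rw [Finset.sum_add_distrib, Finset.sum_const, nsmul_eq_mul, Finset.sum_comm]
    congr 1
    · have : S.card = f h := by
        show S.card = (S.filter fun P => bz P ≤ h).card
        rw [Finset.filter_true_of_mem fun P hP => (hSb P hP).2]
      rw [this]; ring
    · refine Finset.sum_congr rfl fun t _ => ?_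
      rw [← Finset.sum_filter, Finset.sum_const, nsmul_eq_mul]
      ring
  have hA2 : (f h : ℝ) / (h : ℝ) ^ 2 ≤ C * (((A : ℝ) ^ 3 + h) / (B : ℝ) ^ 2) := by
    have h1 := hf3 h hh1
    have h2 : (f h : ℝ) / (h : ℝ) ^ 2 = (f h : ℝ) / (h : ℝ) ^ 3 * h := by
      field_simp
    rw [h2]
    have h3 := mul_le_mul_of_nonneg_right h1 hh0.le
    refine h3.trans ?_
    rw [mul_assoc]
    refine mul_le_mul_of_nonneg_left ?_ (Nat.cast_nonneg _)
    by_cases h4 : B ≤ h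
    · rw [if_neg (by omega), if_pos h4]
      have : 0 ≤ (A : ℝ) ^ 3 / (B : ℝ) ^ 2 := by positivity
      calc (0 + 1 / (B : ℝ) ^ 2 * 1) * h = h / (B : ℝ) ^ 2 := by ring
        _ ≤ ((A : ℝ) ^ 3 + h) / (B : ℝ) ^ 2 := by rw [add_div]; linarith
    · rw [if_pos (by omega), if_neg h4]
      have h5 : (h : ℝ) ≤ B := by exact_mod_cast (by omega : h ≤ B)
      have h6 : (A : ℝ) ^ 3 / (B : ℝ) ^ 3 * h ≤ (A : ℝ) ^ 3 / (B : ℝ) ^ 2 := by
        rw [div_mul_eq_mul_div, div_le_div_iff₀ (by positivity) (by positivity)]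
        have : (A : ℝ) ^ 3 * h * (B : ℝ) ^ 2 ≤ (A : ℝ) ^ 3 * B * (B : ℝ) ^ 2 := by gcongr
        calc (A : ℝ) ^ 3 * h * (B : ℝ) ^ 2 ≤ (A : ℝ) ^ 3 * B * (B : ℝ) ^ 2 := this
          _ = (A : ℝ) ^ 3 * (B : ℝ) ^ 3 := by ring
      have h7 : 0 ≤ (h : ℝ) / (B : ℝ) ^ 2 := by positivity
      rw [add_div]
      calc ((A : ℝ) ^ 3 / (B : ℝ) ^ 3 + 1 / (B : ℝ) ^ 2 * 0) * h = (A : ℝ) ^ 3 / (B : ℝ) ^ 3 * h := by
            ring
        _ ≤ _ := by linarith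
  have hA3 : ∑ t ∈ Ico 1 h, 2 * ((f t : ℝ) / (t : ℝ) ^ 3) ≤
      2 * C * (((A : ℝ) ^ 3 + h) / (B : ℝ) ^ 2) := by
    have e1 : ∑ t ∈ Ico 1 h, 2 * ((f t : ℝ) / (t : ℝ) ^ 3) ≤
        ∑ t ∈ Ico 1 h, 2 * (C * ((if t < B then (A : ℝ) ^ 3 / (B : ℝ) ^ 3 else 0) +
          1 / (B : ℝ) ^ 2 * (if B ≤ t then 1 else 0))) := by
      refine Finset.sum_le_sum fun t ht => ?_
      rw [Finset.mem_Ico] at ht
      exact mul_le_mul_of_nonneg_left (hf3 t ht.1) (by norm_num)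
    refine e1.trans ?_
    have e2 : ∑ t ∈ Ico 1 h, (if t < B then (A : ℝ) ^ 3 / (B : ℝ) ^ 3 else 0) ≤
        (A : ℝ) ^ 3 / (B : ℝ) ^ 2 := by
      rw [← Finset.sum_filter, Finset.sum_const, nsmul_eq_mul]
      have h1 : ((Ico 1 h).filter fun t => t < B).card ≤ B := by
        refine (Finset.card_le_card (t := Finset.range B) ?_).trans (by simp)
        intro t ht
        rw [Finset.mem_filter] at ht
        exact Finset.mem_range.2 ht.2
      have h2 : (((Ico 1 h).filter fun t => t < B).card : ℝ) ≤ B := by exact_mod_cast h1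
      calc (((Ico 1 h).filter fun t => t < B).card : ℝ) * ((A : ℝ) ^ 3 / (B : ℝ) ^ 3)
          ≤ B * ((A : ℝ) ^ 3 / (B : ℝ) ^ 3) := by gcongr
        _ = (A : ℝ) ^ 3 / (B : ℝ) ^ 2 := by field_simp
    have e3 : ∑ t ∈ Ico 1 h, (1 / (B : ℝ) ^ 2 * (if B ≤ t then (1 : ℝ) else 0)) ≤
        h / (B : ℝ) ^ 2 := by
      calc ∑ t ∈ Ico 1 h, (1 / (B : ℝ) ^ 2 * (if B ≤ t then (1 : ℝ) else 0))
          ≤ ∑ _t ∈ Ico 1 h, 1 / (B : ℝ) ^ 2 := by
            refine Finset.sum_le_sum fun t _ => ?_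
            have : (0 : ℝ) ≤ 1 / (B : ℝ) ^ 2 := by positivity
            split_ifs
            · linarith
            · linarith
        _ = ((h - 1 : ℕ) : ℝ) * (1 / (B : ℝ) ^ 2) := by
            rw [Finset.sum_const, nsmul_eq_mul, Nat.card_Ico]
        _ ≤ h * (1 / (B : ℝ) ^ 2) := by
            gcongr
            omega
        _ = h / (B : ℝ) ^ 2 := by ring
    calc ∑ t ∈ Ico 1 h, 2 * (C * ((if t < B then (A : ℝ) ^ 3 / (B : ℝ) ^ 3 else 0) +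
          1 / (B : ℝ) ^ 2 * (if B ≤ t then 1 else 0)))
        = 2 * C * (∑ t ∈ Ico 1 h, (if t < B then (A : ℝ) ^ 3 / (B : ℝ) ^ 3 else 0) +
          ∑ t ∈ Ico 1 h, (1 / (B : ℝ) ^ 2 * (if B ≤ t then (1 : ℝ) else 0))) := by
          rw [← Finset.sum_add_distrib, Finset.mul_sum]
          refine Finset.sum_congr rfl fun t _ => ?_
          ring
      _ ≤ 2 * C * ((A : ℝ) ^ 3 / (B : ℝ) ^ 2 + h / (B : ℝ) ^ 2) := by gcongr
      _ = 2 * C * (((A : ℝ) ^ 3 + h) / (B : ℝ) ^ 2) := by rw [add_div]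
  have hfin : 0 ≤ ((A : ℝ) ^ 3 + h) / (B : ℝ) ^ 2 := by positivity
  calc ∑ P ∈ S, 1 / (bz P : ℝ) ^ 2 ≤ 3 * C * (((A : ℝ) ^ 3 + h) / (B : ℝ) ^ 2) := by linarith
    _ ≤ (3 * C + 1) * (((A : ℝ) ^ 3 + h) / (B : ℝ) ^ 2) := by linarith
    _ = (3 * C + 1) * ((A : ℝ) ^ 3 + h) / (B : ℝ) ^ 2 := by ring

end Cub.H5
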