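import Pool.Agent.Lib.MP_95ac01_nt.H5.Lx

/-!
# MP_95ac01_nt: module PAIRSUM
-/

set_option autoImplicit false

namespace Cub.H5

open Finset Cub

/-- The minors of `(x, y)` divided by their gcd are the minors of `(x, z)` for an integer `z`. -/
theorem exists_prim_part {x y : Fin 4 → ℤ} (hx : Prim x) (hw : 0 < wd x y) :
    ∃ P : Fin 4 → Fin 4 → ℤ, Lx x P ∧ P ≠ 0 ∧ (∀ i j, mn x y i j = (gd x y : ℤ) * P i j) ∧
      wd x y = gd x y * bz P := by
  have hg : 0 < gd x y := (gd_pos_iff x y).2 hw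
  have hch : ∀ i j, ∃ t : ℤ, mn x y i j = (gd x y : ℤ) * t := fun i j => gd_dvd x y i j
  choose P hP using hch
  obtain ⟨u, hu⟩ := hx
  have hg0 : ((gd x y : ℕ) : ℤ) ≠ 0 := by exact_mod_cast hg.ne'
  refine ⟨P, ⟨fun i => ∑ j, u j * P j i, ?_⟩, ?_, hP, ?_⟩
  · funext i j
    have hy : ∀ i, y i = dt u y * x i + (gd x y : ℤ) * ∑ j, u j * P j i := by
      intro i
      have h1 : (gd x y : ℤ) * ∑ j, u j * P j i = ∑ j, u j * mn x y j i := by
        rw [Finset.mul_sum]
        refine Finset.sum_congr rfl fun j _ => ?_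
        rw [hP]; ring
      have h2 : ∑ j, u j * mn x y j i = dt u x * y i - dt u y * x i := by
        simp only [mn, dt, Finset.sum_mul, ← Finset.sum_sub_distrib]
        exact Finset.sum_congr rfl fun j _ => by ring
      rw [h1, h2, hu]; ring
    have h3 : (gd x y : ℤ) * P i j =
        (gd x y : ℤ) * mn x (fun i => ∑ j, u j * P j i) i j := by
      rw [← hP]
      have e1 := hy i
      have e2 := hy j
      simp only [mn]
      rw [e2]
      have e3 : x i * (dt u y * x j + (gd x y : ℤ) * ∑ k, u k * P k j) - x j * y i =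
          x i * (dt u y * x j + (gd x y : ℤ) * ∑ k, u k * P k j) -
          x j * (dt u y * x i + (gd x y : ℤ) * ∑ k, u k * P k i) := by rw [← e1]
      rw [e3]; ring
    exact mul_left_cancel₀ hg0 h3
  · rintro rfl
    obtain ⟨i, j, hij⟩ := (wd_pos_iff x y).1 hw
    apply hij
    rw [hP]
    simp
  · apply le_antisymm
    · rw [wd_le]
      intro i j
      rw [hP, abs_mul]
      push_cast
      rw [Nat.abs_cast]
      exact mul_le_mul_of_nonneg_left (abs_le_bz P i j) (Int.natCast_nonneg _)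
    · obtain ⟨p, -, hp⟩ := Finset.exists_mem_eq_sup (univ : Finset (Fin 4 × Fin 4))
        Finset.univ_nonempty (fun p => (P p.1 p.2).natAbs)
      have h1 : bz P = (P p.1 p.2).natAbs := hp
      have h2 := abs_mn_le x y p.1 p.2
      rw [hP, abs_mul, Nat.abs_cast, ← Int.natCast_natAbs, ← h1] at h2
      exact_mod_cast h2

/-- few vectors of the shell have the same minors with `x` -/
theorem fibre_card {B : ℕ} {x : Fin 4 → ℤ} (hx : x ∈ shell B) (s : Finset (Fin 4 → ℤ))
    (Q : Fin 4 → Fin 4 → ℤ) (hs : ∀ y ∈ s, (∀ i, |y i| ≤ (B : ℤ)) ∧ mn x y = Q) :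
    s.card ≤ 7 := by
  classical
  obtain ⟨-, hprim, i0, hi0⟩ := mem_shell.1 hx
  rcases s.eq_empty_or_nonempty with h | ⟨y0, hy0⟩
  · rw [h]; simp
  · have hsub : s ⊆ (Icc (-3 : ℤ) 3).image fun k => fun i => y0 i + k * x i := by
      intro y hy
      have hw : wd x (y - y0) = 0 := by
        have : wd x (y - y0) ≤ 0 := by
          rw [wd_le]
          intro i j
          rw [mn_sub, (hs y hy).2, (hs y0 hy0).2]
          simp
        omega
      obtain ⟨k, hk⟩ := prim_dvd hprim hw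
      rw [Finset.mem_image]
      refine ⟨k, ?_, ?_⟩
      · have h1 : y i0 - y0 i0 = k * x i0 := congrFun hk i0
        have h2 : |k| * |x i0| ≤ 2 * (B : ℤ) := by
          rw [← abs_mul, ← h1]
          calc |y i0 - y0 i0| ≤ |y i0| + |y0 i0| := abs_sub _ _
            _ ≤ 2 * (B : ℤ) := by linarith [(hs y hy).1 i0, (hs y0 hy0).1 i0]
        have h3 : |k| < 4 := by
          by_contra h4
          have h5 : 4 ≤ |k| := not_lt.1 h4
          have h6 : 4 * |x i0| ≤ |k| * |x i0| := mul_le_mul_of_nonneg_right h5 (abs_nonneg _)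
          linarith
        rw [Finset.mem_Icc]
        rw [abs_lt] at h3
        omega
      · funext i
        have h1 : y i - y0 i = k * x i := congrFun hk i
        linarith
    refine (Finset.card_le_card hsub).trans (Finset.card_image_le.trans ?_)
    simp

theorem pairsum (hS : LxSumStatement) : PairSumStatement := by
  classical
  obtain ⟨C, hC0, hC⟩ := hS
  refine ⟨14 * C, by positivity, fun A B x hx h => ?_⟩
  obtain ⟨hsh, -⟩ := mem_G.1 hx
  obtain ⟨hxB, hprim, i0, hi0⟩ := mem_shell.1 hsh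
  have hBpos : 0 < B := by
    have := hxB i0
    by_contra h0
    have : B = 0 := by omega
    subst this
    simp at hi0 this
    omega
  have hB : (0 : ℝ) < B := by exact_mod_cast hBpos
  set T := (G A B).filter (fun y => 0 < wd x y ∧ wd x y ≤ h * gd x y) with hT
  set S := (LxF x h).filter (fun P => P ≠ 0) with hSd
  have hch : ∀ y ∈ T, ∃ P : Fin 4 → Fin 4 → ℤ, Lx x P ∧ P ≠ 0 ∧
      (∀ i j, mn x y i j = (gd x y : ℤ) * P i j) ∧ wd x y = gd x y * bz P := by
    intro y hy
    rw [hT, Finset.mem_filter] at hy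
    exact exists_prim_part hprim hy.2.1
  choose! φ h1 h2 h3 h4 using hch
  have hgpos : ∀ y ∈ T, 0 < gd x y := by
    intro y hy
    rw [hT, Finset.mem_filter] at hy
    exact (gd_pos_iff x y).2 hy.2.1
  have hmaps : ∀ y ∈ T, φ y ∈ S := by
    intro y hy
    rw [hSd, Finset.mem_filter, mem_LxF]
    refine ⟨⟨?_, h1 y hy⟩, h2 y hy⟩
    rw [← bz_le]
    have h5 := h4 y hy
    have h6 := hgpos y hy
    rw [hT, Finset.mem_filter] at hy
    have h7 : gd x y * bz (φ y) ≤ gd x y * h := by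
      rw [← h5, mul_comm (gd x y) h]
      exact hy.2.2
    exact Nat.le_of_mul_le_mul_left h7 h6
  have hterm : ∀ y ∈ T, (gd x y : ℝ) / wd x y = 1 / (bz (φ y) : ℝ) := by
    intro y hy
    have h5 : (0 : ℝ) < gd x y := by exact_mod_cast hgpos y hy
    have h6 : (0 : ℝ) < bz (φ y) := by exact_mod_cast bz_pos (h2 y hy)
    rw [h4 y hy]
    push_cast
    rw [div_mul_eq_div_div, div_self h5.ne']
  have hfib : ∀ P ∈ S, ((T.filter fun y => φ y = P).card : ℝ) ≤ 14 * (B : ℝ) ^ 2 / bz P := by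
    intro P hP
    rw [hSd, Finset.mem_filter] at hP
    have hbp : 0 < bz P := bz_pos hP.2
    have e1 : (T.filter fun y => φ y = P).card ≤ 7 * (Icc 1 (2 * B ^ 2 / bz P)).card := by
      refine Finset.card_le_mul_card_image_of_maps_to (f := fun y => gd x y) ?_ 7 ?_
      · intro y hy
        rw [Finset.mem_filter] at hy
        rw [Finset.mem_Icc]
        refine ⟨hgpos y hy.1, (Nat.le_div_iff_mul_le hbp).2 ?_⟩
        have h5 := h4 y hy.1
        rw [hy.2] at h5
        rw [← h5]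
        have h6 := (Finset.mem_filter.1 hy.1).1
        exact wd_le_two_mul hxB (mem_shell.1 (mem_G.1 h6).1).1
      · intro d _
        refine fibre_card hsh _ (fun i j => (d : ℤ) * P i j) ?_
        intro y hy
        rw [Finset.mem_filter, Finset.mem_filter] at hy
        obtain ⟨⟨hyT, hyP⟩, hyd⟩ := hy
        refine ⟨(mem_shell.1 (mem_G.1 (Finset.mem_filter.1 hyT).1).1).1, ?_⟩
        funext i j
        rw [h3 y hyT, hyP, hyd]
    rw [Nat.card_Icc, Nat.add_sub_cancel] at e1
    have e2 : ((T.filter fun y => φ y = P).card : ℝ) ≤ 7 * ((2 * B ^ 2 / bz P : ℕ) : ℝ) := by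
      exact_mod_cast e1
    have e3 : ((2 * B ^ 2 / bz P : ℕ) : ℝ) ≤ 2 * (B : ℝ) ^ 2 / bz P := by
      have := @Nat.cast_div_le ℝ _ _ _ (2 * B ^ 2) (bz P)
      push_cast at this
      exact this
    calc ((T.filter fun y => φ y = P).card : ℝ) ≤ 7 * ((2 * B ^ 2 / bz P : ℕ) : ℝ) := e2
      _ ≤ 7 * (2 * (B : ℝ) ^ 2 / bz P) := by linarith
      _ = 14 * (B : ℝ) ^ 2 / bz P := by ring
  calc ∑ y ∈ T, (gd x y : ℝ) / wd x y = ∑ y ∈ T, 1 / (bz (φ y) : ℝ) :=
        Finset.sum_congr rfl hterm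
    _ = ∑ P ∈ S, ∑ y ∈ T.filter (fun y => φ y = P), 1 / (bz (φ y) : ℝ) :=
        (Finset.sum_fiberwise_of_maps_to hmaps _).symm
    _ ≤ ∑ P ∈ S, 14 * (B : ℝ) ^ 2 * (1 / (bz P : ℝ) ^ 2) := by
        refine Finset.sum_le_sum fun P hP => ?_
        have hbp : (0 : ℝ) < bz P := by
          rw [hSd, Finset.mem_filter] at hP
          exact_mod_cast bz_pos hP.2
        have e1 : ∑ y ∈ T.filter (fun y => φ y = P), 1 / (bz (φ y) : ℝ) =
            ((T.filter fun y => φ y = P).card : ℝ) * (1 / (bz P : ℝ)) := by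
          rw [← nsmul_eq_mul, ← Finset.sum_const]
          refine Finset.sum_congr rfl fun y hy => ?_
          rw [(Finset.mem_filter.1 hy).2]
        rw [e1]
        calc ((T.filter fun y => φ y = P).card : ℝ) * (1 / (bz P : ℝ))
            ≤ 14 * (B : ℝ) ^ 2 / bz P * (1 / (bz P : ℝ)) := by
              gcongr
              exact hfib P hP
          _ = 14 * (B : ℝ) ^ 2 * (1 / (bz P : ℝ) ^ 2) := by
              field_simp
    _ = 14 * (B : ℝ) ^ 2 * ∑ P ∈ S, 1 / (bz P : ℝ) ^ 2 := by rw [Finset.mul_sum]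
    _ ≤ 14 * (B : ℝ) ^ 2 * (C * ((A : ℝ) ^ 3 + h) / (B : ℝ) ^ 2) := by
        gcongr
        exact hC A B x hx h
    _ = 14 * C * ((A : ℝ) ^ 3 + h) := by field_simp

end Cub.H5
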